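import Pool.Agent.R953.LV.Fin
import Pool.Agent.R953.LV.KeyR
import Pool.Agent.R953.LV.CV
import Pool.Agent.R953.LV.Cross
import Pool.Agent.R953.LV.Key
import Pool.Agent.R953.LV.Var
import Pool.Agent.R953.LV.Gap
import Pool.Agent.R953.LV.Gron
import Pool.Agent.R953.LV.DK
import Pool.Agent.R953.LV.CVR
import Pool.Agent.R953.LV.C2
import Pool.Agent.R953.LV.AE
import Pool.Agent.R953.LV.Alpha
import Pool.Agent.R953.LV.Data
import Pool.Agent.R953.LV.Law

set_option autoImplicit false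
open Filter Topology MeasureTheory

/-!
# MP_545af4_pr: variance growth exponent of Liouville quasi-periodic symmetric walks

Q1 is false. There is a Liouville number `α` such that for EVERY symmetric smooth environment `π` and
Lebesgue almost every starting phase `x` the walk satisfies `Var_x (Z_T) ≤ T ^ (2 - 1/200)` for all large
`T`; so the limsup of `ln Var_x (Z_T) / ln T` is at most `2 - 1/200`, it is never `2`, and the set of
environments in the question is empty.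
-/
namespace Pool.Agent.Results.MP_545af4_pr.VarianceExponentBelowTwo

open Pool.Agent.R953.LV

/-- The variance of `Z_T`, where `Z_0 = 0` and the walk jumps from `k` to `k + 1` with probability
`π (x + k α)` and to `k - 1` with probability `1 - π (x + k α)` (`law p T` is the law of `Z_T`). -/
noncomputable def varZ (π : ℝ → ℝ) (α x : ℝ) (T : ℕ) : ℝ :=
  ProbabilityTheory.variance (fun k : ℤ => (k : ℝ)) (law (env π α x) T)

/-- The growth exponent `limsup_T ln Var_x (Z_T) / ln T`, as an extended real number. -/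
noncomputable def expo (π : ℝ → ℝ) (α x : ℝ) : EReal :=
  limsup (fun T : ℕ => ((Real.log (varZ π α x T) / Real.log T : ℝ) : EReal)) atTop

lemma expo_le {π : ℝ → ℝ} {α x : ℝ}
    (h : ∀ᶠ T : ℕ in atTop, varZ π α x T ≤ (T : ℝ) ^ (2 - 1 / 200 : ℝ)) :
    expo π α x ≤ ((2 - 1 / 200 : ℝ) : EReal) := by
  unfold expo
  refine Filter.limsup_le_of_le (by isBoundedDefault) ?_
  filter_upwards [h, eventually_ge_atTop 2] with T hT h2
  have hTR : (2 : ℝ) ≤ T := by exact_mod_cast h2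
  have hlog : 0 < Real.log T := Real.log_pos (by linarith)
  rw [EReal.coe_le_coe_iff, div_le_iff₀ hlog]
  have hnn : 0 ≤ varZ π α x T := ProbabilityTheory.variance_nonneg _ _
  rcases hnn.eq_or_lt with h0 | h0
  · rw [← h0, Real.log_zero]
    exact mul_nonneg (by norm_num) hlog.le
  · have := Real.log_le_log h0 hT
    rwa [Real.log_rpow (by linarith)] at this

lemma half_mem : InP (fun _ => (1 / 2 : ℝ)) :=
  ⟨contDiff_const, fun _ => rfl, fun _ => by norm_num, fun _ => by norm_num, by norm_num⟩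

theorem result : ∃ α : ℝ, 0 < α ∧ α < 1 ∧ Irrational α ∧ ¬ Dioph α ∧
    (∀ π : ℝ → ℝ, InP π → ∀ᵐ x : ℝ, ∀ᶠ T : ℕ in atTop, varZ π α x T ≤ (T : ℝ) ^ (2 - 1 / 200 : ℝ)) ∧
    (∀ π : ℝ → ℝ, InP π → ∀ᵐ x : ℝ, expo π α x ≤ ((2 - 1 / 200 : ℝ) : EReal)) ∧
    (∀ (τ : TopologicalSpace {π : ℝ → ℝ // InP π}) (G : Set {π : ℝ → ℝ // InP π}),
      @IsGδ _ τ G → @Dense _ τ G → ¬ (∀ π ∈ G, ∀ᵐ x : ℝ, expo π.1 α x = 2)) := by
  obtain ⟨α, q, a, h1, h2, h3, h4, h5, h6, h7, h8⟩ := s_Alpha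
  have hR := s_CrossR s_CV
  have hL := s_CrossL s_CV
  have main : ∀ π : ℝ → ℝ, InP π → ∀ᵐ x : ℝ, ∀ᶠ T : ℕ in atTop,
      varZ π α x T ≤ (T : ℝ) ^ (2 - 1 / 200 : ℝ) := by
    intro π hπ
    filter_upwards [mainBound s_CV (s_CVR s_CV) (s_Key (s_KeyR s_CV hR hL) hR hL) s_Var s_Gap s_Gron s_DK s_C2
      s_AE s_Data h5 h6 h7 h8 π hπ] with x hx
    filter_upwards [hx] with T hT
    unfold varZ
    rw [(s_Law (env π α x) (fun k => (hπ.pos _).le) (fun k => (hπ.lt_one _).le) T).2]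
    exact hT
  have main2 : ∀ π : ℝ → ℝ, InP π → ∀ᵐ x : ℝ, expo π α x ≤ ((2 - 1 / 200 : ℝ) : EReal) := by
    intro π hπ
    filter_upwards [main π hπ] with x hx
    exact expo_le hx
  refine ⟨α, h1, h2, h3, h4, main, main2, ?_⟩
  intro τ G _ hd hG
  haveI hne : Nonempty {π : ℝ → ℝ // InP π} := ⟨⟨_, half_mem⟩⟩
  obtain ⟨π, hπ⟩ : G.Nonempty := by
    letI := τ
    exact hd.nonempty
  have h9 := hG π hπ
  have h10 := main2 π.1 π.2
  obtain ⟨x, hx1, hx2⟩ := (h9.and h10).exists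
  rw [hx1] at hx2
  have e2 : (2 : EReal) = ((2 : ℝ) : EReal) := rfl
  rw [e2, EReal.coe_le_coe_iff] at hx2
  have h11 := hx2
  norm_num at h11

end Pool.Agent.Results.MP_545af4_pr.VarianceExponentBelowTwo
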